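import Pool.Agent.W717.UR.Stm

set_option autoImplicit false

/-! Project UR, task COR. -/

namespace Pool.Agent.W11.UR

open Pool.Agent.W717.UR

theorem sum_blocks (N h : ℕ) (g : ℕ → ℤ) :
    ∑ i ∈ Finset.range (N * h), g i = ∑ q ∈ Finset.range N, ∑ j ∈ Finset.range h, g (q * h + j) := by
  induction N with
  | zero => simp
  | succ N ih =>
    rw [Nat.succ_mul, Finset.sum_range_add, ih, Finset.sum_range_succ]

theorem bb_block (G N : ℕ → ℕ) (e : ℕ → ℕ → ℤ) (k Q J : ℕ) (hJ : J < hh G N k) :
    bb G N e (k + 1) (((G k * (hh G N k + 1) : ℕ) : ℤ) + ((Q * hh G N k + J : ℕ) : ℤ)) =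
      (if Q < N k then e k Q else 0) * bb G N e k (J : ℤ) := by
  have hpos : 0 < hh G N k := by omega
  rw [bb]
  rw [if_neg (by push_cast; intro h; have := h.2; have h0 : (0 : ℤ) ≤ (Q : ℤ) * hh G N k + J := by positivity
                 linarith)]
  have hdiv : ((((G k * (hh G N k + 1) : ℕ) : ℤ) + ((Q * hh G N k + J : ℕ) : ℤ)) -
      ((G k * (hh G N k + 1) : ℕ) : ℤ)) = ((Q * hh G N k + J : ℕ) : ℤ) := by ring
  rw [hdiv]
  have h1 : ((Q * hh G N k + J : ℕ) : ℤ) / ((hh G N k : ℕ) : ℤ) = (Q : ℤ) := by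
    have : (Q * hh G N k + J) / hh G N k = Q := by
      rw [mul_comm, Nat.mul_add_div hpos, Nat.div_eq_of_lt hJ, add_zero]
    exact_mod_cast this
  have h2 : ((Q * hh G N k + J : ℕ) : ℤ) % ((hh G N k : ℕ) : ℤ) = (J : ℤ) := by
    have : (Q * hh G N k + J) % hh G N k = J := by
      rw [mul_comm, Nat.mul_add_mod, Nat.mod_eq_of_lt hJ]
    exact_mod_cast this
  rw [h1, h2]
  have hh1 : hh G N (k + 1) = G k * (hh G N k + 1) + N k * hh G N k := rfl
  by_cases hQ : Q < N k
  · rw [if_pos, if_pos hQ]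
    · simp
    · constructor
      · have h0 : (0 : ℤ) ≤ ((Q * hh G N k + J : ℕ) : ℤ) := by positivity
        linarith
      · rw [hh1]
        have : Q * hh G N k + J < N k * hh G N k := by
          calc Q * hh G N k + J < Q * hh G N k + hh G N k := by omega
            _ = (Q + 1) * hh G N k := by ring
            _ ≤ N k * hh G N k := Nat.mul_le_mul_right _ hQ
        have h3 : G k * (hh G N k + 1) + (Q * hh G N k + J) <
          G k * (hh G N k + 1) + N k * hh G N k := by omega
        exact_mod_cast h3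
  · rw [if_neg, if_neg hQ, zero_mul]
    rintro ⟨-, h3⟩
    rw [hh1] at h3
    have h4 : G k * (hh G N k + 1) + (Q * hh G N k + J) <
          G k * (hh G N k + 1) + N k * hh G N k := by exact_mod_cast h3
    have h5 : N k * hh G N k ≤ Q * hh G N k := Nat.mul_le_mul_right _ (by omega)
    omega

/-- the autocorrelations -/
def cc (G N : ℕ → ℕ) (e : ℕ → ℕ → ℤ) (k : ℕ) (r : ℤ) : ℤ :=
  ∑ i ∈ Finset.range (hh G N k), bb G N e k i * bb G N e k (i + r)

def AA (N : ℕ → ℕ) (e : ℕ → ℕ → ℤ) (k d : ℕ) : ℤ :=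
  ∑ q ∈ Finset.range (N k - d), e k q * e k (q + d)

theorem AA_eq (N : ℕ → ℕ) (e : ℕ → ℕ → ℤ) (k d : ℕ) :
    ∑ q ∈ Finset.range (N k), e k q * (if q + d < N k then e k (q + d) else 0) = AA N e k d := by
  unfold AA
  have h1 : Finset.range (N k - d) ⊆ Finset.range (N k) := by
    intro x hx
    rw [Finset.mem_range] at hx ⊢
    omega
  rw [← Finset.sum_subset h1]
  · refine Finset.sum_congr rfl fun q hq => ?_
    rw [Finset.mem_range] at hq
    rw [if_pos (by omega)]
  · intro q _ hq
    rw [Finset.mem_range] at hq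
    rw [if_neg (by omega), mul_zero]

theorem rec_cc (G N : ℕ → ℕ) (e : ℕ → ℕ → ℤ)
    (hs : ∀ k i, (i < 0 ∨ (hh G N k : ℤ) ≤ i) → bb G N e k i = 0) (k d r' : ℕ)
    (hr : r' < hh G N k) :
    cc G N e (k + 1) ((d * hh G N k + r' : ℕ) : ℤ) =
      ∑ i ∈ Finset.range (G k * (hh G N k + 1)), bb G N e (k + 1) i *
        bb G N e (k + 1) (i + ((d * hh G N k + r' : ℕ) : ℤ)) +
      (AA N e k d * cc G N e k r' + AA N e k (d + 1) * cc G N e k ((r' : ℤ) - hh G N k)) := by
  have hh1 : hh G N (k + 1) = G k * (hh G N k + 1) + N k * hh G N k := rfl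
  rw [cc, hh1, Finset.sum_range_add]
  congr 1
  rw [sum_blocks]
  have key : ∀ q ∈ Finset.range (N k), ∑ j ∈ Finset.range (hh G N k),
      (bb G N e (k + 1) ((G k * (hh G N k + 1) + (q * hh G N k + j) : ℕ) : ℤ) *
        bb G N e (k + 1) (((G k * (hh G N k + 1) + (q * hh G N k + j) : ℕ) : ℤ) +
          ((d * hh G N k + r' : ℕ) : ℤ))) =
      e k q * (if q + d < N k then e k (q + d) else 0) * cc G N e k r' +
      e k q * (if q + (d + 1) < N k then e k (q + (d + 1)) else 0) *
        cc G N e k ((r' : ℤ) - hh G N k) := by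
    intro q hq
    rw [Finset.mem_range] at hq
    rw [cc, cc, Finset.mul_sum, Finset.mul_sum, ← Finset.sum_add_distrib]
    refine Finset.sum_congr rfl fun j hj => ?_
    rw [Finset.mem_range] at hj
    have e1 := bb_block G N e k q j hj
    rw [if_pos hq] at e1
    have e0 : ((G k * (hh G N k + 1) + (q * hh G N k + j) : ℕ) : ℤ) =
      ((G k * (hh G N k + 1) : ℕ) : ℤ) + ((q * hh G N k + j : ℕ) : ℤ) := by push_cast; ring
    rw [e0, e1]
    rcases Nat.lt_or_ge (j + r') (hh G N k) with hjr | hjr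
    · have e2 := bb_block G N e k (q + d) (j + r') hjr
      have e3 : ((G k * (hh G N k + 1) : ℕ) : ℤ) + ((q * hh G N k + j : ℕ) : ℤ) +
          ((d * hh G N k + r' : ℕ) : ℤ) = ((G k * (hh G N k + 1) : ℕ) : ℤ) +
          (((q + d) * hh G N k + (j + r') : ℕ) : ℤ) := by push_cast; ring
      rw [e3, e2]
      have e4 : bb G N e k ((j : ℤ) + ((r' : ℤ) - hh G N k)) = 0 := by
        apply hs
        left
        have : (j : ℤ) + r' < hh G N k := by exact_mod_cast hjr
        linarith
      rw [e4]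
      push_cast
      ring
    · have e2 := bb_block G N e k (q + (d + 1)) (j + r' - hh G N k) (by omega)
      have e3 : ((G k * (hh G N k + 1) : ℕ) : ℤ) + ((q * hh G N k + j : ℕ) : ℤ) +
          ((d * hh G N k + r' : ℕ) : ℤ) = ((G k * (hh G N k + 1) : ℕ) : ℤ) +
          (((q + (d + 1)) * hh G N k + (j + r' - hh G N k) : ℕ) : ℤ) := by
        push_cast [Nat.cast_sub hjr]
        ring
      rw [e3, e2]
      have e4 : bb G N e k ((j : ℤ) + (r' : ℤ)) = 0 := by
        apply hs
        right
        exact_mod_cast hjr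
      have e5 : (((j + r' - hh G N k : ℕ)) : ℤ) = (j : ℤ) + ((r' : ℤ) - hh G N k) := by
        push_cast [Nat.cast_sub hjr]
        ring
      rw [e4, e5]
      ring
  rw [Finset.sum_congr rfl key, Finset.sum_add_distrib, ← Finset.sum_mul, ← Finset.sum_mul,
    AA_eq, AA_eq]

theorem abs_sum_le (b : ℤ → ℤ) (hb : ∀ i, b i = -1 ∨ b i = 0 ∨ b i = 1) (n : ℕ) (r : ℤ) :
    |∑ i ∈ Finset.range n, b i * b (i + r)| ≤ n := by
  have hb' : ∀ i, |b i| ≤ 1 := by
    intro i
    rcases hb i with h | h | h <;> rw [h] <;> norm_num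
  calc |∑ i ∈ Finset.range n, b i * b (i + r)| ≤ ∑ i ∈ Finset.range n, |b i * b (i + r)| :=
        Finset.abs_sum_le_sum_abs _ _
    _ ≤ ∑ i ∈ Finset.range n, (1 : ℤ) := by
        refine Finset.sum_le_sum fun i _ => ?_
        rw [abs_mul]
        have h1 := hb' i
        have h2 := hb' (i + r)
        have h3 := abs_nonneg (b i)
        have h4 := abs_nonneg (b (i + r))
        nlinarith
    _ = n := by simp

theorem cc_eq_int (b : ℤ → ℤ) (h : ℕ) (r : ℤ) :
    ∑ i ∈ Finset.range h, b i * b (i + r) = ∑ i ∈ Finset.Ico (0 : ℤ) h, b i * b (i + r) := by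
  rw [← Finset.sum_image (s := Finset.range h) (g := fun i : ℕ => (i : ℤ))
    (f := fun i : ℤ => b i * b (i + r))]
  · congr 1
    ext x
    simp only [Finset.mem_image, Finset.mem_range, Finset.mem_Ico]
    constructor
    · rintro ⟨a, ha, rfl⟩
      exact ⟨by positivity, by exact_mod_cast ha⟩
    · rintro ⟨h1, h2⟩
      refine ⟨x.toNat, by omega, by omega⟩
  · intro a _ b _ hab
    have : (a : ℤ) = (b : ℤ) := hab
    exact_mod_cast this

theorem cc_neg (b : ℤ → ℤ) (h : ℕ) (hs : ∀ i, (i < 0 ∨ (h : ℤ) ≤ i) → b i = 0) (r : ℤ) :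
    ∑ i ∈ Finset.range h, b i * b (i + -r) = ∑ i ∈ Finset.range h, b i * b (i + r) := by
  rw [cc_eq_int, cc_eq_int]
  have hf : ∀ t : ℤ, ∑ i ∈ (Finset.Ico (0 : ℤ) h).filter (fun i => 0 ≤ i + t ∧ i + t < h),
      b i * b (i + t) = ∑ i ∈ Finset.Ico (0 : ℤ) h, b i * b (i + t) := by
    intro t
    apply Finset.sum_filter_of_ne
    intro x _ hx
    by_contra hcon
    apply hx
    rw [hs (x + t) (by
      by_contra h2
      push Not at h2
      exact hcon h2), mul_zero]
  rw [← hf (-r), ← hf r]
  refine Finset.sum_nbij' (fun i => i + -r) (fun i => i + r) ?_ ?_ ?_ ?_ ?_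
  · intro i hi
    simp only [Finset.mem_filter, Finset.mem_Ico] at hi ⊢
    refine ⟨⟨hi.2.1, hi.2.2⟩, ?_, ?_⟩
    · have := hi.1.1; linarith
    · have := hi.1.2; linarith
  · intro i hi
    simp only [Finset.mem_filter, Finset.mem_Ico] at hi ⊢
    refine ⟨⟨hi.2.1, hi.2.2⟩, ?_, ?_⟩
    · have := hi.1.1; linarith
    · have := hi.1.2; linarith
  · intro i _; ring
  · intro i _; ring
  · intro i _
    have : i + -r + r = i := by ring
    rw [this]
    ring

theorem cor (hB : S_BASIC) : S_COR := by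
  intro G N e hP j
  obtain ⟨hb1, hb2, hb3⟩ := hB G N e hP
  have hmono : Monotone (hh G N) := monotone_nat_of_le_succ fun k => (hb1 k).2.2.le
  have hpos : ∀ k, 1 ≤ hh G N k := fun k => by
    have := (hb1 k).2.1
    omega
  -- the induction
  have main : ∀ k : ℕ, j ≤ k → ∀ r : ℤ, (hh G N j : ℤ) ≤ |r| →
      |((cc G N e k r : ℤ) : ℝ)| ≤ (6 / 100) * ((1 / 2) ^ j - (1 / 2) ^ k) * hh G N k := by
    intro k hk
    induction k, hk using Nat.le_induction with
    | base =>
      intro r hr
      have : cc G N e j r = 0 := by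
        unfold cc
        refine Finset.sum_eq_zero fun i hi => ?_
        rw [Finset.mem_range] at hi
        have hi' : (i : ℤ) < hh G N j := by exact_mod_cast hi
        have hi0 : (0 : ℤ) ≤ i := by positivity
        rw [hb3 j (i + r) (by
          rcases le_abs.1 hr with h | h
          · right; linarith
          · left; linarith), mul_zero]
      rw [this]
      simp
    | succ k hk ih =>
      -- positive r
      have hposr : ∀ r : ℕ, hh G N j ≤ r → |((cc G N e (k + 1) (r : ℤ) : ℤ) : ℝ)| ≤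
          (6 / 100) * ((1 / 2) ^ j - (1 / 2) ^ (k + 1)) * hh G N (k + 1) := by
        intro r hr
        set h : ℕ := hh G N k with hh0
        set d : ℕ := r / h with hd
        set r' : ℕ := r % h with hr'
        have hh0pos : 0 < h := hpos k
        have hrd : d * h + r' = r := by
          rw [hd, hr', mul_comm]
          exact Nat.div_add_mod r h
        have hrlt : r' < h := Nat.mod_lt _ hh0pos
        have hrec := rec_cc G N e hb3 k d r' hrlt
        rw [← hh0, hrd] at hrec
        have b1 := abs_sum_le (bb G N e (k + 1)) (hb2 (k + 1)) (G k * (h + 1)) (r : ℤ)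
        have b2 : |cc G N e k r'| ≤ h := abs_sum_le (bb G N e k) (hb2 k) h r'
        have b3 : |cc G N e k ((r' : ℤ) - h)| ≤ h := abs_sum_le (bb G N e k) (hb2 k) h _
        have b1' : |((∑ i ∈ Finset.range (G k * (h + 1)), bb G N e (k + 1) i *
            bb G N e (k + 1) (i + (r : ℤ)) : ℤ) : ℝ)| ≤ ((G k * (h + 1) : ℕ) : ℝ) := by
          exact_mod_cast b1
        have b2' : |((cc G N e k r' : ℤ) : ℝ)| ≤ h := by exact_mod_cast b2
        have b3' : |((cc G N e k ((r' : ℤ) - h) : ℤ) : ℝ)| ≤ h := by exact_mod_cast b3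
        have hlen := hP.hlen k
        have hcor : ∀ d : ℕ, 1 ≤ d → |((AA N e k d : ℤ) : ℝ)| ≤ (1 / 100) * (1 / 2) ^ k * N k :=
          fun d hd => hP.hcor k d hd
        have hh1 : hh G N (k + 1) = G k * (h + 1) + N k * h := rfl
        have hh1' : (N k : ℝ) * h ≤ hh G N (k + 1) := by
          rw [hh1]
          push_cast
          have : (0 : ℝ) ≤ G k * ((h : ℝ) + 1) := by positivity
          linarith
        have hN0 : (0 : ℝ) ≤ N k := Nat.cast_nonneg _
        have hhR : (0 : ℝ) ≤ (h : ℝ) := Nat.cast_nonneg _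
        have hp0 : (0 : ℝ) < (1 / 2) ^ k := by positivity
        have hpk : (1 / 2 : ℝ) ^ (k + 1) = (1 / 2) ^ k / 2 := by rw [pow_succ]; ring
        have hpj : (1 / 2 : ℝ) ^ k ≤ (1 / 2) ^ j :=
          pow_le_pow_of_le_one (by norm_num) (by norm_num) hk
        have hA1 : |((AA N e k (d + 1) : ℤ) : ℝ)| * |((cc G N e k ((r' : ℤ) - h) : ℤ) : ℝ)| ≤
            ((1 / 100) * (1 / 2) ^ k * N k) * h :=
          mul_le_mul (hcor (d + 1) (Nat.succ_le_succ (Nat.zero_le d))) b3' (abs_nonneg _) (by positivity)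
        have htri : |((cc G N e (k + 1) (r : ℤ) : ℤ) : ℝ)| ≤ ((G k * (h + 1) : ℕ) : ℝ) +
            (|((AA N e k d : ℤ) : ℝ)| * |((cc G N e k r' : ℤ) : ℝ)| +
              |((AA N e k (d + 1) : ℤ) : ℝ)| * |((cc G N e k ((r' : ℤ) - h) : ℤ) : ℝ)|) := by
          rw [hrec]
          push_cast
          refine (abs_add_le _ _).trans (add_le_add (by exact_mod_cast b1') ?_)
          refine (abs_add_le _ _).trans ?_
          rw [abs_mul, abs_mul]
        rcases Nat.lt_or_ge r h with hlt | hge
        · -- d = 0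
          have hd0 : d = 0 := Nat.div_eq_of_lt hlt
          have hr0 : r' = r := Nat.mod_eq_of_lt hlt
          have hA0 : |((AA N e k d : ℤ) : ℝ)| ≤ N k := by
            rw [hd0]
            have : AA N e k 0 = N k := by
              unfold AA
              rw [Nat.sub_zero]
              have : ∀ q ∈ Finset.range (N k), e k q * e k (q + 0) = 1 := by
                intro q _
                rw [add_zero]
                rcases hP.he k q with h | h <;> rw [h] <;> norm_num
              rw [Finset.sum_congr rfl this]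
              simp
            rw [this]
            push_cast
            rw [abs_of_nonneg hN0]
          have hih := ih (r : ℤ) (by rw [abs_of_nonneg (by positivity)]; exact_mod_cast hr)
          have hA0' : |((AA N e k d : ℤ) : ℝ)| * |((cc G N e k r' : ℤ) : ℝ)| ≤
              N k * ((6 / 100) * ((1 / 2) ^ j - (1 / 2) ^ k) * h) := by
            rw [hr0]
            exact mul_le_mul hA0 hih (abs_nonneg _) hN0
          rw [hpk]
          have hq : 0 ≤ (6 / 100) * (((1 / 2 : ℝ) ^ j) - (1 / 2) ^ k) := by linarith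
          nlinarith
        · have hd1 : 1 ≤ d := (Nat.one_le_div_iff hh0pos).2 hge
          have hA0' : |((AA N e k d : ℤ) : ℝ)| * |((cc G N e k r' : ℤ) : ℝ)| ≤
              ((1 / 100) * (1 / 2) ^ k * N k) * h :=
            mul_le_mul (hcor d hd1) b2' (abs_nonneg _) (by positivity)
          rw [hpk]
          have hq : 0 ≤ (6 / 100) * (((1 / 2 : ℝ) ^ j) - (1 / 2) ^ k) := by linarith
          nlinarith
      intro r hr
      rcases le_total 0 r with h0 | h0
      · lift r to ℕ using h0
        apply hposr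
        rw [abs_of_nonneg (by positivity)] at hr
        exact_mod_cast hr
      · obtain ⟨s, rfl⟩ : ∃ s : ℕ, r = -(s : ℤ) := ⟨(-r).toNat, by omega⟩
        have hsym : cc G N e (k + 1) (-(s : ℤ)) = cc G N e (k + 1) (s : ℤ) :=
          cc_neg (bb G N e (k + 1)) _ (hb3 (k + 1)) s
        rw [hsym]
        apply hposr
        rw [abs_neg, abs_of_nonneg (by positivity)] at hr
        exact_mod_cast hr
  intro k r hr
  change |((cc G N e k r : ℤ) : ℝ)| ≤ _
  rcases Nat.lt_or_ge k j with hkj | hkj
  · have h1 : cc G N e k r = 0 := by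
      unfold cc
      refine Finset.sum_eq_zero fun i hi => ?_
      rw [Finset.mem_range] at hi
      have hi1 : i < hh G N j := lt_of_lt_of_le hi (hmono hkj.le)
      have hi' : (i : ℤ) < hh G N k := by exact_mod_cast hi
      have hjk : (hh G N k : ℤ) ≤ hh G N j := by exact_mod_cast hmono hkj.le
      have hi0 : (0 : ℤ) ≤ i := by positivity
      rw [hb3 k (i + r) (by
        rcases le_abs.1 hr with h | h
        · right; linarith
        · left; linarith), mul_zero]
    rw [h1]
    have : (0 : ℝ) ≤ 6 / 100 * (1 / 2) ^ j * hh G N k := by positivity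
    simpa using this
  · refine (main k hkj r hr).trans ?_
    have h1 : (0 : ℝ) < (1 / 2) ^ k := by positivity
    have h2 : (0 : ℝ) ≤ hh G N k := Nat.cast_nonneg _
    nlinarith

end Pool.Agent.W11.UR
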